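import Pool.Agent.F5S.Stmts

/-!
Squad F5S, row WIN: a window lies between two combinations of kernels.
-/

set_option autoImplicit false

namespace Pool.Agent.F5S.H10

open Pool.Agent.BTL

theorem win (hK : KKFStmt) (hP : PARStmt) (hG : GRDStmt) : WINStmt := by
  intro a b c d hab hcd
  obtain ⟨C, hC1, hC⟩ := hG a b c d hab hcd
  refine ⟨C, hC1, ?_⟩
  intro e he he1
  obtain ⟨Gm, Gp, h1, h2, h3, h4⟩ := hC e he he1
  obtain ⟨hk0, -, hk2, -⟩ := hK e he
  have hei : 0 < e⁻¹ := inv_pos.mpr he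
  refine ⟨Gm, Gp, ?_, ?_, h3, h4⟩
  · intro y
    by_cases hy : (a < y.1 ∧ y.1 < b ∧ c < y.2 ∧ y.2 < d)
    · have hw : wnd a b c d y = 1 := by
        unfold wnd
        rw [if_pos hy]
      rw [hw]
      have hs := (hP e he y Gm).1
      calc e⁻¹ * ∑ g ∈ Gm, kk e (y - sc e g) ≤ e⁻¹ * e :=
            mul_le_mul_of_nonneg_left hs hei.le
        _ = 1 := inv_mul_cancel₀ he.ne'
    · have hw : wnd a b c d y = 0 := by
        unfold wnd
        rw [if_neg hy]
      rw [hw]
      have hz : ∑ g ∈ Gm, kk e (y - sc e g) = 0 := by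
        apply Finset.sum_eq_zero
        intro g hg
        by_contra hne
        obtain ⟨ha, hb⟩ := hk2 _ hne
        obtain ⟨g1, g2, g3, g4⟩ := h1 g hg
        simp only [sc, Prod.fst_sub, Prod.snd_sub] at ha hb
        rw [abs_lt] at ha hb
        apply hy
        refine ⟨?_, ?_, ?_, ?_⟩ <;> linarith [ha.1, ha.2, hb.1, hb.2]
      rw [hz, mul_zero]
  · intro y
    by_cases hy : (a < y.1 ∧ y.1 < b ∧ c < y.2 ∧ y.2 < d)
    · have hw : wnd a b c d y = 1 := by
        unfold wnd
        rw [if_pos hy]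
      rw [hw]
      have hs : ∑ g ∈ Gp, kk e (y - sc e g) = e := by
        apply (hP e he y Gp).2
        intro g hne
        obtain ⟨ha, hb⟩ := hk2 _ hne
        obtain ⟨y1, y2, y3, y4⟩ := hy
        simp only [sc, Prod.fst_sub, Prod.snd_sub] at ha hb
        rw [abs_lt] at ha hb
        apply h2 g <;> linarith [ha.1, ha.2, hb.1, hb.2]
      rw [hs, inv_mul_cancel₀ he.ne']
    · have hw : wnd a b c d y = 0 := by
        unfold wnd
        rw [if_neg hy]
      rw [hw]
      apply mul_nonneg hei.le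
      apply Finset.sum_nonneg
      intro g _
      exact (hk0 _).1

end Pool.Agent.F5S.H10
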